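import Pool.Agent.Lib_MP_7ab33c.Final

/-!
# The grid minor constant is at most 4.1
-/

set_option autoImplicit false

namespace Pool.Agent.Results.MP_7ab33c_co.UpperBound

open Pool.Agent.GridMinor

/-- For every `t ≥ 1`, every finite graph with average degree at least `4.1 t^2` has the `t × t`
grid as a minor; hence `c^* ≤ 4.1`. -/
theorem result : GridForcing (41 / 10) ∧ cStar ≤ 41 / 10 := by
  have h : GridForcing (41 / 10) := by
    refine ⟨by norm_num, fun t ht n hn G hG => ?_⟩
    have hgm : GM G Finset.univ t := by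
      apply grid_all ht
      · rw [Finset.card_univ, Fintype.card_fin]; exact hn
      · rw [Finset.card_univ, Fintype.card_fin, sm_univ]
        unfold avgDeg at hG
        have hn0 : (0 : ℝ) < n := by exact_mod_cast hn
        rw [le_div_iff₀ hn0] at hG
        have h1 : 20 * (41 * (t * t) / 20) ≤ 41 * (t * t) := Nat.mul_div_le _ _
        have h2 : 20 * ((41 * (t * t) / 20 : ℕ) : ℝ) ≤ 41 * ((t : ℝ) * t) := by exact_mod_cast h1
        have h3 : ((2 * (41 * (t * t) / 20) * n : ℕ) : ℝ) ≤ ((2 * G.edgeSet.ncard : ℕ) : ℝ) := by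
          push_cast
          nlinarith
        exact_mod_cast h3
    exact hgm.isMinor
  refine ⟨h, csInf_le ⟨0, fun c hc => hc.1.le⟩ h⟩

end Pool.Agent.Results.MP_7ab33c_co.UpperBound
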